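import Pool.Agent.H548.LU.Defs

/-!
Part E of project LU (MP_1da87e_co): the robust level lemma (written by helper209).
-/

set_option autoImplicit false

namespace Pool.Agent.R209.LU

open Finset Classical Pool.Agent.H548.LU

noncomputable section

/-! ### Lemma W: the weights of one level -/

/-- the five inequalities for the weights of one level -/
structure Wt (T c0 γ θ lam ψ1 ψ2 χ0 χ1 : ℝ) : Prop where
  hθ : 1 ≤ θ
  hlam : 0 < lam
  hψ1 : 0 < ψ1
  hψ2 : 0 < ψ2
  hχ0 : 0 < χ0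
  hχ1 : 0 < χ1
  i1 : χ0 ≤ lam
  i2 : θ * χ1 + χ0 ≤ 2 * lam * ψ1
  i3 : θ * χ1 ≤ 2 * lam * ψ2
  i4 : (1 - γ) + γ * ψ1 ≤ lam * χ0
  i5 : θ * ((1 - γ) * ψ1 + γ * ψ2) ≤ lam * χ1
  i6 : lam ≤ (1 - c0) * Real.exp (T * Real.log θ)

theorem exists_wt {T γ : ℝ} (hT : 0 < T) (hT1 : T ≤ 1 / 2) (h0 : 0 ≤ γ) (h1 : γ ≤ 1) :
    ∃ θ lam ψ1 ψ2 χ0 χ1 : ℝ, Wt T (T ^ 2 / 800) γ θ lam ψ1 ψ2 χ0 χ1 := by
  by_cases hγ : T / 10 ≤ γ
  · -- heavy level
    have hpos : 0 < 1 - γ ^ 2 / 4 := by nlinarith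
    have hs : 0 < Real.sqrt (1 - γ ^ 2 / 4) := Real.sqrt_pos.2 hpos
    have hsq : Real.sqrt (1 - γ ^ 2 / 4) * Real.sqrt (1 - γ ^ 2 / 4) = 1 - γ ^ 2 / 4 :=
      Real.mul_self_sqrt hpos.le
    set l := Real.sqrt (1 - γ ^ 2 / 4) with hl
    refine ⟨1, l, 1 - γ / 4, (1 - γ / 2) / 2, l, l * (1 - γ / 2), ?_⟩
    refine ⟨le_rfl, hs, by linarith, by linarith, hs, mul_pos hs (by linarith), le_rfl, ?_, ?_,
      ?_, ?_, ?_⟩
    · apply le_of_eq; ring
    · apply le_of_eq; ring
    · rw [hsq]; apply le_of_eq; ring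
    · have : l * (l * (1 - γ / 2)) = (1 - γ ^ 2 / 4) * (1 - γ / 2) := by
        rw [← mul_assoc, hsq]
      rw [this]
      have h3 : 0 ≤ γ * (1 - γ) := mul_nonneg h0 (by linarith)
      have h4 : 0 ≤ γ ^ 3 := by positivity
      nlinarith
    · rw [Real.log_one, mul_zero, Real.exp_zero, mul_one]
      have h3 : l ≤ 1 - γ ^ 2 / 8 := by
        rw [hl]
        apply Real.sqrt_le_iff.2
        constructor
        · nlinarith
        · nlinarith [sq_nonneg (γ ^ 2)]
      have h4 : T ^ 2 / 800 ≤ γ ^ 2 / 8 := by nlinarith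
      linarith
  · -- light level
    push Not at hγ
    have hpos : 0 < 1 + 3 / 2 * γ := by linarith
    have hs : 0 < Real.sqrt (1 + 3 / 2 * γ) := Real.sqrt_pos.2 hpos
    have hsq : Real.sqrt (1 + 3 / 2 * γ) * Real.sqrt (1 + 3 / 2 * γ) = 1 + 3 / 2 * γ :=
      Real.mul_self_sqrt hpos.le
    set l := Real.sqrt (1 + 3 / 2 * γ) with hl
    have hl1 : 1 ≤ l := by
      rw [hl]
      exact Real.one_le_sqrt.2 (by linarith)
    refine ⟨5 / 4, l, 5 / 2, 5 / 2, l, (25 / 8) / l, ?_⟩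
    have hinv : (25 / 8) / l ≤ 25 / 8 := div_le_self (by norm_num) hl1
    refine ⟨by norm_num, hs, by norm_num, by norm_num, hs, by positivity, le_rfl, ?_, ?_,
      ?_, ?_, ?_⟩
    · nlinarith
    · nlinarith
    · rw [hsq]; apply le_of_eq; ring
    · rw [mul_div_cancel₀ _ hs.ne']
      apply le_of_eq; ring
    · have h3 : (1 : ℝ) / 5 ≤ Real.log (5 / 4) := by
        have h4 := Real.log_le_sub_one_of_pos (show (0 : ℝ) < 4 / 5 by norm_num)
        have h5 : Real.log (5 / 4) = - Real.log (4 / 5) := by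
          rw [← Real.log_inv]
          norm_num
        rw [h5]
        linarith
      have h4 : 1 + T / 5 ≤ Real.exp (T * Real.log (5 / 4)) := by
        have h5 := Real.add_one_le_exp (T * Real.log (5 / 4))
        nlinarith
      have h5 : l ≤ 1 + 3 / 40 * T := by
        rw [hl]
        apply Real.sqrt_le_iff.2
        constructor
        · linarith
        · nlinarith
      have h6 : 0 ≤ 1 - T ^ 2 / 800 := by nlinarith
      have h7 : (1 - T ^ 2 / 800) * (1 + T / 5) ≤
          (1 - T ^ 2 / 800) * Real.exp (T * Real.log (5 / 4)) :=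
        mul_le_mul_of_nonneg_left h4 h6
      nlinarith

/-! ### the weights -/

section weights

variable {k : ℕ}

/-- weight of a pair of indices -/
def psi (C : Finset (Fin k)) (ψ1 ψ2 : ℝ) (p : Fin k × Fin k) : ℝ :=
  if p.1 ∈ C then (if p.2 ∈ C then ψ2 else ψ1) else (if p.2 ∈ C then ψ1 else 1)

/-- weight of an index -/
def chi (C : Finset (Fin k)) (χ0 χ1 : ℝ) (z : Fin k) : ℝ := if z ∈ C then χ1 else χ0

/-- edge weight -/
def ww (C : Finset (Fin k)) (θ : ℝ) (z : Fin k) : ℝ := if z ∈ C then θ else 1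

variable {T c0 γ θ lam ψ1 ψ2 χ0 χ1 : ℝ}

theorem psi_pos (h : Wt T c0 γ θ lam ψ1 ψ2 χ0 χ1) (C : Finset (Fin k)) (p : Fin k × Fin k) :
    0 < psi C ψ1 ψ2 p := by
  unfold psi
  have := h.hψ1
  have := h.hψ2
  split_ifs <;> linarith

theorem chi_pos (h : Wt T c0 γ θ lam ψ1 ψ2 χ0 χ1) (C : Finset (Fin k)) (z : Fin k) :
    0 < chi C χ0 χ1 z := by
  unfold chi
  have := h.hχ0
  have := h.hχ1
  split_ifs <;> linarith

theorem ww_pos (h : Wt T c0 γ θ lam ψ1 ψ2 χ0 χ1) (C : Finset (Fin k)) (z : Fin k) :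
    0 < ww C θ z := by
  unfold ww
  have := h.hθ
  split_ifs <;> linarith

theorem rowA (h : Wt T c0 γ θ lam ψ1 ψ2 χ0 χ1) (C : Finset (Fin k)) (p : Fin k × Fin k)
    (A : Finset (Fin k)) (hA : ∀ z ∈ A, z = p.1 ∨ z = p.2)
    (hA1 : ∀ z ∈ A, ∀ z' ∈ A, z ∈ C → z' ∈ C → z = z') :
    ∑ z ∈ A, ww C θ z * chi C χ0 χ1 z ≤ 2 * lam * psi C ψ1 ψ2 p := by
  have hpos : ∀ z, 0 ≤ ww C θ z * chi C χ0 χ1 z := fun z =>
    mul_nonneg (ww_pos h C z).le (chi_pos h C z).le
  have hsub : A ⊆ {p.1, p.2} := by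
    intro z hz
    rcases hA z hz with h | h
    · simp [h]
    · simp [h]
  have hθ := h.hθ
  have hχ1 := h.hχ1
  have hχ0 := h.hχ0
  have hlam := h.hlam
  have hpair : ∑ z ∈ A, ww C θ z * chi C χ0 χ1 z ≤
      ww C θ p.1 * chi C χ0 χ1 p.1 + ww C θ p.2 * chi C χ0 χ1 p.2 := by
    refine (Finset.sum_le_sum_of_subset_of_nonneg hsub (fun z _ _ => hpos z)).trans ?_
    by_cases h12 : p.1 = p.2
    · rw [h12]
      simp only [Finset.pair_eq_singleton, Finset.sum_singleton]
      have := hpos p.2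
      linarith
    · rw [Finset.sum_pair h12]
  by_cases h1 : p.1 ∈ C
  · by_cases h2 : p.2 ∈ C
    · -- both
      have hcard : A.card ≤ 1 := by
        rw [Finset.card_le_one]
        intro z hz z' hz'
        apply hA1 z hz z' hz'
        · rcases hA z hz with e | e <;> rw [e] <;> assumption
        · rcases hA z' hz' with e | e <;> rw [e] <;> assumption
      have hval : ∀ z ∈ A, ww C θ z * chi C χ0 χ1 z = θ * χ1 := by
        intro z hz
        have : z ∈ C := by rcases hA z hz with e | e <;> rw [e] <;> assumption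
        simp [ww, chi, this]
      rw [Finset.sum_congr rfl hval, Finset.sum_const, nsmul_eq_mul]
      have h3 : (A.card : ℝ) ≤ 1 := by exact_mod_cast hcard
      have h4 : psi C ψ1 ψ2 p = ψ2 := by simp [psi, h1, h2]
      rw [h4]
      have h5 := h.i3
      have h6 : 0 < θ * χ1 := by positivity
      nlinarith
    · have h4 : psi C ψ1 ψ2 p = ψ1 := by simp [psi, h1, h2]
      rw [h4]
      refine hpair.trans ?_
      have e1 : ww C θ p.1 * chi C χ0 χ1 p.1 = θ * χ1 := by simp [ww, chi, h1]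
      have e2 : ww C θ p.2 * chi C χ0 χ1 p.2 = χ0 := by simp [ww, chi, h2]
      rw [e1, e2]
      exact h.i2
  · by_cases h2 : p.2 ∈ C
    · have h4 : psi C ψ1 ψ2 p = ψ1 := by simp [psi, h1, h2]
      rw [h4]
      refine hpair.trans ?_
      have e1 : ww C θ p.1 * chi C χ0 χ1 p.1 = χ0 := by simp [ww, chi, h1]
      have e2 : ww C θ p.2 * chi C χ0 χ1 p.2 = θ * χ1 := by simp [ww, chi, h2]
      rw [e1, e2]
      have := h.i2
      linarith
    · have h4 : psi C ψ1 ψ2 p = 1 := by simp [psi, h1, h2]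
      rw [h4]
      refine hpair.trans ?_
      have e1 : ww C θ p.1 * chi C χ0 χ1 p.1 = χ0 := by simp [ww, chi, h1]
      have e2 : ww C θ p.2 * chi C χ0 χ1 p.2 = χ0 := by simp [ww, chi, h2]
      rw [e1, e2]
      have := h.i1
      linarith

theorem sum_ite (C : Finset (Fin k)) (u v : ℝ) :
    ∑ y : Fin k, (if y ∈ C then u else v) = (C.card : ℝ) * u + ((k : ℝ) - C.card) * v := by
  have h1 : ∑ y : Fin k, (if y ∈ C then u else v) =
      ∑ y : Fin k, ((if y ∈ C then u - v else 0) + v) := by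
    apply Finset.sum_congr rfl
    intro y _
    split_ifs <;> ring
  rw [h1, Finset.sum_add_distrib, ← Finset.sum_filter, Finset.sum_const, Finset.sum_const,
    nsmul_eq_mul, nsmul_eq_mul, Finset.filter_mem_eq_inter, Finset.univ_inter, Finset.card_univ,
    Fintype.card_fin]
  ring

theorem rowB (hk : 0 < k) (C : Finset (Fin k))
    (h : Wt T c0 ((C.card : ℝ) / k) θ lam ψ1 ψ2 χ0 χ1) (z : Fin k) :
    ∑ p ∈ univ.filter (fun p : Fin k × Fin k => z = p.1 ∨ z = p.2), ww C θ z * psi C ψ1 ψ2 p ≤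
      2 * k * lam * chi C χ0 χ1 z := by
  have hk' : (0 : ℝ) < k := by exact_mod_cast hk
  have hpos : ∀ p, 0 ≤ ww C θ z * psi C ψ1 ψ2 p := fun p =>
    mul_nonneg (ww_pos h C z).le (psi_pos h C p).le
  have hsub : univ.filter (fun p : Fin k × Fin k => z = p.1 ∨ z = p.2) ⊆
      (univ.image fun y : Fin k => (z, y)) ∪ (univ.image fun x : Fin k => (x, z)) := by
    intro p hp
    rw [Finset.mem_filter] at hp
    rw [Finset.mem_union, Finset.mem_image, Finset.mem_image]
    rcases hp.2 with e | e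
    · left
      exact ⟨p.2, Finset.mem_univ _, by rw [e]⟩
    · right
      exact ⟨p.1, Finset.mem_univ _, by rw [e]⟩
  have h1 : ∑ p ∈ univ.filter (fun p : Fin k × Fin k => z = p.1 ∨ z = p.2),
      ww C θ z * psi C ψ1 ψ2 p ≤
      ∑ y : Fin k, ww C θ z * psi C ψ1 ψ2 (z, y) + ∑ x : Fin k, ww C θ z * psi C ψ1 ψ2 (x, z) := by
    refine (Finset.sum_le_sum_of_subset_of_nonneg hsub (fun p _ _ => hpos p)).trans ?_
    have h2 : ∑ p ∈ (univ.image fun y : Fin k => (z, y)) ∪ (univ.image fun x : Fin k => (x, z)),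
        ww C θ z * psi C ψ1 ψ2 p ≤ ∑ p ∈ (univ.image fun y : Fin k => (z, y)),
        ww C θ z * psi C ψ1 ψ2 p + ∑ p ∈ (univ.image fun x : Fin k => (x, z)),
        ww C θ z * psi C ψ1 ψ2 p := by
      have h3 := Finset.sum_union_inter (s₁ := univ.image fun y : Fin k => (z, y))
        (s₂ := univ.image fun x : Fin k => (x, z)) (f := fun p => ww C θ z * psi C ψ1 ψ2 p)
      have h4 : 0 ≤ ∑ p ∈ (univ.image fun y : Fin k => (z, y)) ∩
          (univ.image fun x : Fin k => (x, z)), ww C θ z * psi C ψ1 ψ2 p :=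
        Finset.sum_nonneg fun p _ => hpos p
      linarith
    refine h2.trans (le_of_eq ?_)
    rw [Finset.sum_image (fun y _ y' _ e => (Prod.ext_iff.1 e).2),
      Finset.sum_image (fun y _ y' _ e => (Prod.ext_iff.1 e).1)]
  refine h1.trans ?_
  set g : ℝ := (C.card : ℝ) / k with hg
  have hck : (C.card : ℝ) = g * k := by rw [hg]; field_simp
  by_cases hz : z ∈ C
  · have e1 : ∀ y : Fin k, ww C θ z * psi C ψ1 ψ2 (z, y) = if y ∈ C then θ * ψ2 else θ * ψ1 := by
      intro y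
      by_cases hy : y ∈ C <;> simp [ww, psi, hz, hy]
    have e2 : ∀ y : Fin k, ww C θ z * psi C ψ1 ψ2 (y, z) = if y ∈ C then θ * ψ2 else θ * ψ1 := by
      intro y
      by_cases hy : y ∈ C <;> simp [ww, psi, hz, hy]
    rw [Finset.sum_congr rfl (fun y _ => e1 y), Finset.sum_congr rfl (fun y _ => e2 y), sum_ite,
      hck]
    have e3 : chi C χ0 χ1 z = χ1 := by simp [chi, hz]
    rw [e3]
    have h5 := mul_le_mul_of_nonneg_left h.i5 (show (0 : ℝ) ≤ 2 * k by positivity)
    nlinarith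
  · have e1 : ∀ y : Fin k, ww C θ z * psi C ψ1 ψ2 (z, y) = if y ∈ C then ψ1 else 1 := by
      intro y
      by_cases hy : y ∈ C <;> simp [ww, psi, hz, hy]
    have e2 : ∀ y : Fin k, ww C θ z * psi C ψ1 ψ2 (y, z) = if y ∈ C then ψ1 else 1 := by
      intro y
      by_cases hy : y ∈ C <;> simp [ww, psi, hz, hy]
    rw [Finset.sum_congr rfl (fun y _ => e1 y), Finset.sum_congr rfl (fun y _ => e2 y), sum_ite,
      hck]
    have e3 : chi C χ0 χ1 z = χ0 := by simp [chi, hz]
    rw [e3]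
    have h5 := mul_le_mul_of_nonneg_left h.i4 (show (0 : ℝ) ≤ 2 * k by positivity)
    nlinarith

end weights

/-! ### the weighted Schur test -/

section schur

variable {k d N : ℕ} {D : ℝ} {X : Finset (Ed k d N)} {U : Finset (Vx k d N)}
  {Y : Finset (Ed k d N)} {C : Fin d → Finset (Fin k)}
  {T c0 : ℝ} {θ lam ψ1 ψ2 χ0 χ1 : Fin d → ℝ}

/-- the weight of an edge -/
def we (C : Fin d → Finset (Fin k)) (θ : Fin d → ℝ) (e : Ed k d N) : ℝ :=
  ∏ j, ww (C j) (θ j) (zc e.2 j)

/-- the weight of a vertex of side A -/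
def fA (C : Fin d → Finset (Fin k)) (ψ1 ψ2 : Fin d → ℝ) (a : Lab k d N) : ℝ :=
  ∏ j, psi (C j) (ψ1 j) (ψ2 j) (a.1 j)

/-- the weight of a vertex of side B -/
def fB (C : Fin d → Finset (Fin k)) (χ0 χ1 : Fin d → ℝ) (b : Lab k d N) : ℝ :=
  ∏ j, chi (C j) (χ0 j) (χ1 j) (zc b j)

theorem stepA (hX : DegX k d N D X) (hY : Y ⊆ X)
    (hW : ∀ j, Wt T c0 (((C j).card : ℝ) / k) (θ j) (lam j) (ψ1 j) (ψ2 j) (χ0 j) (χ1 j))
    (huniq : ∀ a b b' : Lab k d N, ∀ j, (a, b) ∈ Y → (a, b') ∈ Y → zc b j ∈ C j → zc b' j ∈ C j →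
      zc b j = zc b' j) (a : Lab k d N) :
    ∑ e ∈ Y.filter (fun e => e.1 = a), we C θ e * fB C χ0 χ1 e.2 ≤
      (∏ j, lam j) * D * fA C ψ1 ψ2 a := by
  set Al : Fin d → Finset (Fin k) := fun j =>
    (Y.filter (fun e => e.1 = a)).image (fun e => zc e.2 j) with hAl
  have hAlmem : ∀ j z, z ∈ Al j → ∃ b, (a, b) ∈ Y ∧ zc b j = z := by
    intro j z hz
    rw [hAl] at hz
    obtain ⟨e, he, rfl⟩ := Finset.mem_image.1 hz
    rw [Finset.mem_filter] at he
    refine ⟨e.2, ?_, rfl⟩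
    rw [← he.2]
    exact he.1
  have hAl1 : ∀ j, ∀ z ∈ Al j, z = (a.1 j).1 ∨ z = (a.1 j).2 := by
    intro j z hz
    obtain ⟨b, hb, rfl⟩ := hAlmem j z hz
    have := hX.sub (hY hb)
    unfold Pot at this
    rw [Finset.mem_filter] at this
    exact this.2 j
  have hAl2 : ∀ j, ∀ z ∈ Al j, ∀ z' ∈ Al j, z ∈ C j → z' ∈ C j → z = z' := by
    intro j z hz z' hz' h1 h2
    obtain ⟨b, hb, rfl⟩ := hAlmem j z hz
    obtain ⟨b', hb', rfl⟩ := hAlmem j z' hz'
    exact huniq a b b' j hb hb' h1 h2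
  have hmaps : ∀ e ∈ Y.filter (fun e => e.1 = a), (fun j => zc e.2 j) ∈ Fintype.piFinset Al := by
    intro e he
    rw [Fintype.mem_piFinset]
    intro j
    exact Finset.mem_image_of_mem _ he
  have hww : ∀ e ∈ Y.filter (fun e => e.1 = a), we C θ e * fB C χ0 χ1 e.2 =
      ∏ j, (ww (C j) (θ j) (zc e.2 j) * chi (C j) (χ0 j) (χ1 j) (zc e.2 j)) := by
    intro e _
    unfold we fB
    rw [Finset.prod_mul_distrib]
  have hpos : ∀ z : Fin d → Fin k, 0 ≤ ∏ j, (ww (C j) (θ j) (z j) *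
      chi (C j) (χ0 j) (χ1 j) (z j)) := fun z => Finset.prod_nonneg fun j _ =>
    mul_nonneg (ww_pos (hW j) _ _).le (chi_pos (hW j) _ _).le
  have h2d : (0 : ℝ) < 2 ^ d := by positivity
  have hD : 0 ≤ D / 2 ^ d := by
    have h1 := hX.degA a (fun j => (a.1 j).1)
    have h2 : (0 : ℝ) ≤ ((univ.filter fun b : Lab k d N => (a, b) ∈ X ∧
      ∀ j, zc b j = (a.1 j).1).card : ℝ) * 2 ^ d := by positivity
    exact div_nonneg (h2.trans h1) h2d.le
  rw [Finset.sum_congr rfl hww, ← Finset.sum_fiberwise_of_maps_to hmaps]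
  calc ∑ z ∈ Fintype.piFinset Al, ∑ e ∈ (Y.filter (fun e => e.1 = a)).filter
        (fun e => (fun j => zc e.2 j) = z),
        ∏ j, (ww (C j) (θ j) (zc e.2 j) * chi (C j) (χ0 j) (χ1 j) (zc e.2 j))
      ≤ ∑ z ∈ Fintype.piFinset Al, (D / 2 ^ d) *
        ∏ j, (ww (C j) (θ j) (z j) * chi (C j) (χ0 j) (χ1 j) (z j)) := by
        apply Finset.sum_le_sum
        intro z _
        have hc : ∀ e ∈ (Y.filter (fun e => e.1 = a)).filter (fun e => (fun j => zc e.2 j) = z),
            ∏ j, (ww (C j) (θ j) (zc e.2 j) * chi (C j) (χ0 j) (χ1 j) (zc e.2 j)) =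
            ∏ j, (ww (C j) (θ j) (z j) * chi (C j) (χ0 j) (χ1 j) (z j)) := by
          intro e he
          rw [Finset.mem_filter] at he
          apply Finset.prod_congr rfl
          intro j _
          rw [← congrFun he.2 j]
        rw [Finset.sum_congr rfl hc, Finset.sum_const, nsmul_eq_mul]
        apply mul_le_mul_of_nonneg_right _ (hpos z)
        rw [le_div_iff₀ h2d]
        refine le_trans ?_ (hX.degA a z)
        apply mul_le_mul_of_nonneg_right _ h2d.le
        have : ((Y.filter (fun e => e.1 = a)).filter (fun e => (fun j => zc e.2 j) = z)).card ≤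
            (univ.filter fun b : Lab k d N => (a, b) ∈ X ∧ ∀ j, zc b j = z j).card := by
          apply Finset.card_le_card_of_injOn (fun e => e.2)
          · intro e he
            rw [Finset.mem_coe, Finset.mem_filter, Finset.mem_filter] at he
            rw [Finset.mem_coe, Finset.mem_filter]
            refine ⟨Finset.mem_univ _, ?_, fun j => congrFun he.2 j⟩
            rw [← he.1.2]
            exact hY he.1.1
          · intro e he e' he' heq
            rw [Finset.mem_coe, Finset.mem_filter, Finset.mem_filter] at he he'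
            exact Prod.ext (he.1.2.trans he'.1.2.symm) heq
        exact_mod_cast this
    _ = (D / 2 ^ d) * ∏ j, ∑ z ∈ Al j, ww (C j) (θ j) z * chi (C j) (χ0 j) (χ1 j) z := by
        rw [Finset.prod_univ_sum, Finset.mul_sum]
    _ ≤ (D / 2 ^ d) * ∏ j, (2 * lam j * psi (C j) (ψ1 j) (ψ2 j) (a.1 j)) := by
        apply mul_le_mul_of_nonneg_left _ hD
        apply Finset.prod_le_prod
        · intro j _
          exact Finset.sum_nonneg fun z _ =>
            mul_nonneg (ww_pos (hW j) _ _).le (chi_pos (hW j) _ _).le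
        · intro j _
          exact rowA (hW j) (C j) (a.1 j) (Al j) (hAl1 j) (hAl2 j)
    _ = (∏ j, lam j) * D * fA C ψ1 ψ2 a := by
        unfold fA
        rw [Finset.prod_mul_distrib, Finset.prod_mul_distrib, Finset.prod_const, Finset.card_univ,
          Fintype.card_fin]
        field_simp

theorem stepB (hk : 0 < k) (hX : DegX k d N D X) (hY : Y ⊆ X)
    (hW : ∀ j, Wt T c0 (((C j).card : ℝ) / k) (θ j) (lam j) (ψ1 j) (ψ2 j) (χ0 j) (χ1 j))
    (b : Lab k d N) :
    ∑ e ∈ Y.filter (fun e => e.2 = b), we C θ e * fA C ψ1 ψ2 e.1 ≤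
      (∏ j, lam j) * D * fB C χ0 χ1 b := by
  set Al : Fin d → Finset (Fin k × Fin k) := fun j =>
    univ.filter (fun p : Fin k × Fin k => zc b j = p.1 ∨ zc b j = p.2) with hAl
  have hk' : (0 : ℝ) < k := by exact_mod_cast hk
  have hmaps : ∀ e ∈ Y.filter (fun e => e.2 = b), e.1.1 ∈ Fintype.piFinset Al := by
    intro e he
    rw [Fintype.mem_piFinset]
    intro j
    rw [Finset.mem_filter] at he
    rw [hAl, Finset.mem_filter]
    refine ⟨Finset.mem_univ _, ?_⟩
    have := hX.sub (hY he.1)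
    unfold Pot at this
    rw [Finset.mem_filter] at this
    have h2 := this.2 j
    rw [he.2] at h2
    exact h2
  have hww : ∀ e ∈ Y.filter (fun e => e.2 = b), we C θ e * fA C ψ1 ψ2 e.1 =
      ∏ j, (ww (C j) (θ j) (zc b j) * psi (C j) (ψ1 j) (ψ2 j) (e.1.1 j)) := by
    intro e he
    rw [Finset.mem_filter] at he
    unfold we fA
    rw [Finset.prod_mul_distrib, he.2]
  have hpos : ∀ α : Fin d → Fin k × Fin k, 0 ≤ ∏ j, (ww (C j) (θ j) (zc b j) *
      psi (C j) (ψ1 j) (ψ2 j) (α j)) := fun z => Finset.prod_nonneg fun j _ =>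
    mul_nonneg (ww_pos (hW j) _ _).le (psi_pos (hW j) _ _).le
  have h2d : (0 : ℝ) < (2 * (k : ℝ)) ^ d := by positivity
  have hD : 0 ≤ D / (2 * (k : ℝ)) ^ d := by
    have h1 := hX.degB b b.1
    have h2 : (0 : ℝ) ≤ ((univ.filter fun a : Lab k d N => (a, b) ∈ X ∧
      a.1 = b.1).card : ℝ) * (2 * (k : ℝ)) ^ d := by positivity
    exact div_nonneg (h2.trans h1) h2d.le
  rw [Finset.sum_congr rfl hww, ← Finset.sum_fiberwise_of_maps_to hmaps]
  calc ∑ α ∈ Fintype.piFinset Al, ∑ e ∈ (Y.filter (fun e => e.2 = b)).filter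
        (fun e => e.1.1 = α),
        ∏ j, (ww (C j) (θ j) (zc b j) * psi (C j) (ψ1 j) (ψ2 j) (e.1.1 j))
      ≤ ∑ α ∈ Fintype.piFinset Al, (D / (2 * (k : ℝ)) ^ d) *
        ∏ j, (ww (C j) (θ j) (zc b j) * psi (C j) (ψ1 j) (ψ2 j) (α j)) := by
        apply Finset.sum_le_sum
        intro α _
        have hc : ∀ e ∈ (Y.filter (fun e => e.2 = b)).filter (fun e => e.1.1 = α),
            ∏ j, (ww (C j) (θ j) (zc b j) * psi (C j) (ψ1 j) (ψ2 j) (e.1.1 j)) =
            ∏ j, (ww (C j) (θ j) (zc b j) * psi (C j) (ψ1 j) (ψ2 j) (α j)) := by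
          intro e he
          rw [Finset.mem_filter] at he
          apply Finset.prod_congr rfl
          intro j _
          rw [he.2]
        rw [Finset.sum_congr rfl hc, Finset.sum_const, nsmul_eq_mul]
        apply mul_le_mul_of_nonneg_right _ (hpos α)
        rw [le_div_iff₀ h2d]
        refine le_trans ?_ (hX.degB b α)
        apply mul_le_mul_of_nonneg_right _ h2d.le
        have : ((Y.filter (fun e => e.2 = b)).filter (fun e => e.1.1 = α)).card ≤
            (univ.filter fun a : Lab k d N => (a, b) ∈ X ∧ a.1 = α).card := by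
          apply Finset.card_le_card_of_injOn (fun e => e.1)
          · intro e he
            rw [Finset.mem_coe, Finset.mem_filter, Finset.mem_filter] at he
            rw [Finset.mem_coe, Finset.mem_filter]
            refine ⟨Finset.mem_univ _, ?_, he.2⟩
            rw [← he.1.2]
            exact hY he.1.1
          · intro e he e' he' heq
            rw [Finset.mem_coe, Finset.mem_filter, Finset.mem_filter] at he he'
            exact Prod.ext heq (he.1.2.trans he'.1.2.symm)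
        exact_mod_cast this
    _ = (D / (2 * (k : ℝ)) ^ d) * ∏ j, ∑ p ∈ Al j, ww (C j) (θ j) (zc b j) *
        psi (C j) (ψ1 j) (ψ2 j) p := by
        rw [Finset.prod_univ_sum, Finset.mul_sum]
    _ ≤ (D / (2 * (k : ℝ)) ^ d) * ∏ j, (2 * k * lam j * chi (C j) (χ0 j) (χ1 j) (zc b j)) := by
        apply mul_le_mul_of_nonneg_left _ hD
        apply Finset.prod_le_prod
        · intro j _
          exact Finset.sum_nonneg fun z _ =>
            mul_nonneg (ww_pos (hW j) _ _).le (psi_pos (hW j) _ _).le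
        · intro j _
          exact rowB hk (C j) (hW j) (zc b j)
    _ = (∏ j, lam j) * D * fB C χ0 χ1 b := by
        unfold fB
        rw [Finset.prod_mul_distrib, Finset.prod_mul_distrib, Finset.prod_const, Finset.card_univ,
          Fintype.card_fin]
        field_simp

theorem schur (hk : 0 < k) (hX : DegX k d N D X) (hYX : Y ⊆ inn X U)
    (hW : ∀ j, Wt T c0 (((C j).card : ℝ) / k) (θ j) (lam j) (ψ1 j) (ψ2 j) (χ0 j) (χ1 j))
    (huniq : ∀ a b b' : Lab k d N, ∀ j, (a, b) ∈ Y → (a, b') ∈ Y → zc b j ∈ C j → zc b' j ∈ C j →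
      zc b j = zc b' j) :
    ∑ e ∈ Y, we C θ e ≤ 1 / 2 * (∏ j, lam j) * D * (U.card : ℝ) := by
  have hY : Y ⊆ X := fun e he => (Finset.mem_filter.1 (hYX he)).1
  have hfA : ∀ a : Lab k d N, 0 < fA C ψ1 ψ2 a := fun a =>
    Finset.prod_pos fun j _ => psi_pos (hW j) _ _
  have hfB : ∀ b : Lab k d N, 0 < fB C χ0 χ1 b := fun b =>
    Finset.prod_pos fun j _ => chi_pos (hW j) _ _
  have hwe : ∀ e : Ed k d N, 0 < we C θ e := fun e =>
    Finset.prod_pos fun j _ => ww_pos (hW j) _ _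
  have hlam : 0 < ∏ j, lam j := Finset.prod_pos fun j _ => (hW j).hlam
  have h1 : ∑ e ∈ Y, we C θ e * (fB C χ0 χ1 e.2 / fA C ψ1 ψ2 e.1) ≤
      (∏ j, lam j) * D * (U.toLeft.card : ℝ) := by
    have hmaps : ∀ e ∈ Y, e.1 ∈ U.toLeft := by
      intro e he
      rw [Finset.mem_toLeft]
      exact (Finset.mem_filter.1 (hYX he)).2.1
    rw [← Finset.sum_fiberwise_of_maps_to hmaps]
    calc ∑ a ∈ U.toLeft, ∑ e ∈ Y.filter (fun e => e.1 = a),
          we C θ e * (fB C χ0 χ1 e.2 / fA C ψ1 ψ2 e.1)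
        ≤ ∑ _a ∈ U.toLeft, (∏ j, lam j) * D := by
          apply Finset.sum_le_sum
          intro a _
          have h2 : ∑ e ∈ Y.filter (fun e => e.1 = a),
              we C θ e * (fB C χ0 χ1 e.2 / fA C ψ1 ψ2 e.1) =
              (∑ e ∈ Y.filter (fun e => e.1 = a), we C θ e * fB C χ0 χ1 e.2) /
                fA C ψ1 ψ2 a := by
            rw [Finset.sum_div]
            apply Finset.sum_congr rfl
            intro e he
            rw [Finset.mem_filter] at he
            rw [he.2, mul_div_assoc]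
          rw [h2, div_le_iff₀ (hfA a)]
          exact stepA hX hY hW huniq a
      _ = (∏ j, lam j) * D * (U.toLeft.card : ℝ) := by
          rw [Finset.sum_const, nsmul_eq_mul]
          ring
  have h2 : ∑ e ∈ Y, we C θ e * (fA C ψ1 ψ2 e.1 / fB C χ0 χ1 e.2) ≤
      (∏ j, lam j) * D * (U.toRight.card : ℝ) := by
    have hmaps : ∀ e ∈ Y, e.2 ∈ U.toRight := by
      intro e he
      rw [Finset.mem_toRight]
      exact (Finset.mem_filter.1 (hYX he)).2.2
    rw [← Finset.sum_fiberwise_of_maps_to hmaps]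
    calc ∑ b ∈ U.toRight, ∑ e ∈ Y.filter (fun e => e.2 = b),
          we C θ e * (fA C ψ1 ψ2 e.1 / fB C χ0 χ1 e.2)
        ≤ ∑ _b ∈ U.toRight, (∏ j, lam j) * D := by
          apply Finset.sum_le_sum
          intro b _
          have h2 : ∑ e ∈ Y.filter (fun e => e.2 = b),
              we C θ e * (fA C ψ1 ψ2 e.1 / fB C χ0 χ1 e.2) =
              (∑ e ∈ Y.filter (fun e => e.2 = b), we C θ e * fA C ψ1 ψ2 e.1) /
                fB C χ0 χ1 b := by
            rw [Finset.sum_div]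
            apply Finset.sum_congr rfl
            intro e he
            rw [Finset.mem_filter] at he
            rw [he.2, mul_div_assoc]
          rw [h2, div_le_iff₀ (hfB b)]
          exact stepB hk hX hY hW b
      _ = (∏ j, lam j) * D * (U.toRight.card : ℝ) := by
          rw [Finset.sum_const, nsmul_eq_mul]
          ring
  have h3 : ∑ e ∈ Y, we C θ e ≤ ∑ e ∈ Y, (1 / 2 * (we C θ e * (fB C χ0 χ1 e.2 /
      fA C ψ1 ψ2 e.1)) + 1 / 2 * (we C θ e * (fA C ψ1 ψ2 e.1 / fB C χ0 χ1 e.2))) := by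
    apply Finset.sum_le_sum
    intro e _
    have ha := hfA e.1
    have hb := hfB e.2
    have hw := hwe e
    have h4 : 2 ≤ fB C χ0 χ1 e.2 / fA C ψ1 ψ2 e.1 + fA C ψ1 ψ2 e.1 / fB C χ0 χ1 e.2 := by
      rw [div_add_div _ _ ha.ne' hb.ne', le_div_iff₀ (mul_pos ha hb)]
      nlinarith [sq_nonneg (fB C χ0 χ1 e.2 - fA C ψ1 ψ2 e.1)]
    nlinarith
  rw [Finset.sum_add_distrib, ← Finset.mul_sum, ← Finset.mul_sum] at h3
  have h4 : (U.toLeft.card : ℝ) + (U.toRight.card : ℝ) = U.card := by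
    exact_mod_cast Finset.card_toLeft_add_card_toRight
  rw [← h4]
  linarith

/-- the tangent line -/
theorem tangent (hθ : ∀ j, 1 ≤ θ j)
    (hfreq : ∀ j, T * (Y.card : ℝ) ≤ ((Y.filter fun e => zc e.2 j ∈ C j).card : ℝ)) :
    (Y.card : ℝ) * ∏ j, Real.exp (T * Real.log (θ j)) ≤ ∑ e ∈ Y, we C θ e := by
  set m : ℝ := ∑ j, T * Real.log (θ j) with hm
  set L : Ed k d N → ℝ := fun e => ∑ j, (if zc e.2 j ∈ C j then Real.log (θ j) else 0) with hL
  have hwe : ∀ e, we C θ e = Real.exp (L e) := by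
    intro e
    rw [hL]
    simp only
    rw [Real.exp_sum]
    unfold we
    apply Finset.prod_congr rfl
    intro j _
    unfold ww
    split_ifs
    · rw [Real.exp_log]
      linarith [hθ j]
    · rw [Real.exp_zero]
  have hsumL : m * (Y.card : ℝ) ≤ ∑ e ∈ Y, L e := by
    rw [hL]
    simp only
    rw [Finset.sum_comm, hm, Finset.sum_mul]
    apply Finset.sum_le_sum
    intro j _
    rw [← Finset.sum_filter, Finset.sum_const, nsmul_eq_mul]
    have h1 := hfreq j
    have h2 : 0 ≤ Real.log (θ j) := Real.log_nonneg (hθ j)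
    nlinarith
  have htan : ∀ e, Real.exp m * (1 + L e - m) ≤ we C θ e := by
    intro e
    rw [hwe e]
    have h1 := Real.add_one_le_exp (L e - m)
    have h2 : Real.exp (L e) = Real.exp m * Real.exp (L e - m) := by
      rw [← Real.exp_add]
      congr 1
      ring
    rw [h2]
    apply mul_le_mul_of_nonneg_left _ (Real.exp_pos m).le
    linarith
  rw [← Real.exp_sum, ← hm]
  calc (Y.card : ℝ) * Real.exp m
      ≤ ∑ e ∈ Y, Real.exp m * (1 + L e - m) := by
        rw [← Finset.mul_sum, Finset.sum_sub_distrib, Finset.sum_add_distrib, Finset.sum_const,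
          Finset.sum_const, nsmul_eq_mul, nsmul_eq_mul]
        have := Real.exp_pos m
        nlinarith
    _ ≤ ∑ e ∈ Y, we C θ e := Finset.sum_le_sum fun e _ => htan e

end schur

theorem mem_Wset_inl {k d N : ℕ} {j : Fin d} {i : Fin k} {a : Lab k d N} :
    (Sum.inl a : Vx k d N) ∈ Wset j i ↔ (a.1 j).1 = i ∨ (a.1 j).2 = i := by
  unfold Wset
  rw [Finset.mem_filter]
  constructor
  · rintro ⟨_, ⟨a', h, h'⟩ | ⟨b, h, _⟩⟩
    · rw [Sum.inl.inj h]
      exact h'
    · cases h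
  · intro h
    exact ⟨Finset.mem_univ _, Or.inl ⟨a, rfl, h⟩⟩

theorem mem_Wset_inr {k d N : ℕ} {j : Fin d} {i : Fin k} {b : Lab k d N} :
    (Sum.inr b : Vx k d N) ∈ Wset j i ↔ zc b j = i := by
  unfold Wset
  rw [Finset.mem_filter]
  constructor
  · rintro ⟨_, ⟨a', h, _⟩ | ⟨b', h, h'⟩⟩
    · cases h
    · rw [Sum.inr.inj h]
      exact h'
  · intro h
    exact ⟨Finset.mem_univ _, Or.inr ⟨b, rfl, h⟩⟩

theorem mem_inn {k d N : ℕ} {X : Finset (Ed k d N)} {W : Finset (Vx k d N)} {e : Ed k d N} :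
    e ∈ inn X W ↔ e ∈ X ∧ Sum.inl e.1 ∈ W ∧ Sum.inr e.2 ∈ W := by
  simp [inn]

theorem mem_inn_W {k d N : ℕ} {X : Finset (Ed k d N)} (hX : X ⊆ Pot k d N)
    {U : Finset (Vx k d N)} {e : Ed k d N} {j : Fin d} {i : Fin k} :
    e ∈ inn X (U ∩ Wset j i) ↔ e ∈ inn X U ∧ zc e.2 j = i := by
  rw [mem_inn, mem_inn, Finset.mem_inter, Finset.mem_inter, mem_Wset_inl, mem_Wset_inr]
  constructor
  · rintro ⟨h1, ⟨h2, _⟩, h4, h5⟩
    exact ⟨⟨h1, h2, h4⟩, h5⟩
  · rintro ⟨⟨h1, h2, h4⟩, h5⟩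
    refine ⟨h1, ⟨h2, ?_⟩, h4, h5⟩
    have := hX h1
    unfold Pot at this
    rw [Finset.mem_filter] at this
    rcases this.2 j with e | e
    · left; rw [← e, h5]
    · right; rw [← e, h5]

theorem sum_card_W {k d N : ℕ} (U : Finset (Vx k d N)) (j : Fin d) (C : Finset (Fin k)) :
    ∑ i ∈ C, (U ∩ Wset j i).card ≤ 2 * U.card := by
  have h1 : ∑ i ∈ C, (U ∩ Wset j i).card = ∑ v ∈ U, (C.filter fun i => v ∈ Wset j i).card := by
    have e1 : ∀ i ∈ C, (U ∩ Wset j i).card = ∑ v ∈ U, if v ∈ Wset j i then 1 else 0 := by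
      intro i _
      rw [← Finset.filter_mem_eq_inter, Finset.card_filter]
      apply Finset.sum_congr rfl
      intro v _
      by_cases hv : v ∈ Wset j i
      · rw [if_pos hv, if_pos hv]
      · rw [if_neg hv, if_neg hv]
    rw [Finset.sum_congr rfl e1, Finset.sum_comm]
    apply Finset.sum_congr rfl
    intro v _
    rw [Finset.card_filter]
    apply Finset.sum_congr rfl
    intro i _
    by_cases hv : v ∈ Wset j i
    · rw [if_pos hv, if_pos hv]
    · rw [if_neg hv, if_neg hv]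
  rw [h1]
  have h2 : ∀ v ∈ U, (C.filter fun i => v ∈ Wset j i).card ≤ 2 := by
    intro v _
    rcases v with a | b
    · have : (C.filter fun i => (Sum.inl a : Vx k d N) ∈ Wset j i) ⊆ {(a.1 j).1, (a.1 j).2} := by
        intro i hi
        rw [Finset.mem_filter, mem_Wset_inl] at hi
        rw [Finset.mem_insert, Finset.mem_singleton]
        rcases hi.2 with h | h
        · left; exact h.symm
        · right; exact h.symm
      exact (Finset.card_le_card this).trans Finset.card_le_two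
    · have : (C.filter fun i => (Sum.inr b : Vx k d N) ∈ Wset j i) ⊆ {zc b j} := by
        intro i hi
        rw [Finset.mem_filter, mem_Wset_inr] at hi
        rw [Finset.mem_singleton]
        exact hi.2.symm
      exact (Finset.card_le_card this).trans (by simp)
  calc ∑ v ∈ U, (C.filter fun i => v ∈ Wset j i).card ≤ ∑ _v ∈ U, 2 := Finset.sum_le_sum h2
    _ = 2 * U.card := by rw [Finset.sum_const, smul_eq_mul, mul_comm]

theorem stmtRobust : StmtRobust := by
  intro δ τ hδ hτ hτ1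
  set T : ℝ := τ / 2 with hT
  have hT0 : 0 < T := by positivity
  have hT1 : T ≤ 1 / 2 := by linarith
  set c0 : ℝ := T ^ 2 / 800 with hc0
  have hc00 : 0 < c0 := by positivity
  have hc01 : c0 < 1 := by nlinarith
  obtain ⟨d0, hd0⟩ := exists_pow_lt_of_lt_one hδ (show 1 - c0 < 1 by linarith)
  set d : ℕ := d0 + 1 with hd
  have hdpos : 0 < d := by omega
  have hdd : (1 - c0) ^ d ≤ δ := by
    rw [hd, pow_succ]
    have h1 : 0 ≤ (1 - c0) ^ d0 := pow_nonneg (by linarith) _
    nlinarith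
  have hdR : (0 : ℝ) < d := by exact_mod_cast hdpos
  set ρ₂ : ℝ := δ * τ / (8 * d) with hρ
  have hρ0 : 0 < ρ₂ := by positivity
  refine ⟨d, hdpos, ρ₂, hρ0, ?_⟩
  intro k N D X hD hX U hU
  by_contra hcon
  push Not at hcon
  choose C M hM1 hM2 hM3 hM4 using hcon
  have hU0 : (0 : ℝ) ≤ U.card := Nat.cast_nonneg _
  have hinnpos : 0 < ((inn X U).card : ℝ) :=
    lt_of_le_of_lt (mul_nonneg (mul_pos hδ hD).le hU0) hU
  have hne : (inn X U).Nonempty := by
    rw [← Finset.card_pos]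
    exact_mod_cast hinnpos
  have hk : 0 < k := by
    obtain ⟨e, _⟩ := hne
    have := (e.1.1 ⟨0, hdpos⟩).1
    exact this.pos
  -- the exceptional edges
  set R : Finset (Ed k d N) := univ.biUnion fun j : Fin d => (C j).biUnion fun i =>
    inn X (U ∩ Wset j i) \ inn X (M j i) with hR
  have hinnM : ∀ j, ∀ i ∈ C j, inn X (M j i) ⊆ inn X (U ∩ Wset j i) := by
    intro j i hi e he
    rw [mem_inn] at he ⊢
    exact ⟨he.1, hM1 j i hi he.2.1, hM1 j i hi he.2.2⟩
  have hRcard : (R.card : ℝ) ≤ τ / 4 * ((inn X U).card : ℝ) := by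
    have h1 : (R.card : ℝ) ≤ ∑ j : Fin d, ∑ i ∈ C j, ((inn X (U ∩ Wset j i) \ inn X (M j i)).card : ℝ) := by
      have h2 : R.card ≤ ∑ j : Fin d, ∑ i ∈ C j, (inn X (U ∩ Wset j i) \ inn X (M j i)).card :=
        Finset.card_biUnion_le.trans (Finset.sum_le_sum fun j _ => Finset.card_biUnion_le)
      exact_mod_cast h2
    have h3 : ∀ j : Fin d, ∑ i ∈ C j, ((inn X (U ∩ Wset j i) \ inn X (M j i)).card : ℝ) ≤
        ρ₂ * D * (2 * U.card) := by
      intro j
      have h4 : ∀ i ∈ C j, ((inn X (U ∩ Wset j i) \ inn X (M j i)).card : ℝ) ≤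
          ρ₂ * D * ((U ∩ Wset j i).card : ℝ) := by
        intro i hi
        rw [Finset.card_sdiff_of_subset (hinnM j i hi),
          Nat.cast_sub (Finset.card_le_card (hinnM j i hi))]
        exact hM3 j i hi
      refine (Finset.sum_le_sum h4).trans ?_
      rw [← Finset.mul_sum]
      apply mul_le_mul_of_nonneg_left _ (by positivity)
      have := sum_card_W U j (C j)
      exact_mod_cast this
    refine (h1.trans (Finset.sum_le_sum fun j _ => h3 j)).trans ?_
    rw [Finset.sum_const, Finset.card_univ, Fintype.card_fin, nsmul_eq_mul]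
    have h5 : (d : ℝ) * (ρ₂ * D * (2 * U.card)) = τ / 4 * (δ * D * U.card) := by
      rw [hρ]
      field_simp
      ring
    rw [h5]
    apply mul_le_mul_of_nonneg_left hU.le (by positivity)
  set Y : Finset (Ed k d N) := inn X U \ R with hY
  have hYsub : Y ⊆ inn X U := Finset.sdiff_subset
  have hYcard : ((inn X U).card : ℝ) - R.card ≤ Y.card := by
    have h1 : (inn X U).card ≤ R.card + Y.card := by
      have h2 : inn X U ⊆ R ∪ Y := by
        intro e he
        rw [Finset.mem_union]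
        by_cases h : e ∈ R
        · exact Or.inl h
        · exact Or.inr (Finset.mem_sdiff.2 ⟨he, h⟩)
      exact (Finset.card_le_card h2).trans (Finset.card_union_le _ _)
    have h3 : ((inn X U).card : ℝ) ≤ R.card + Y.card := by exact_mod_cast h1
    linarith
  -- if (a,b) ∈ Y and z_j(b) ∈ C_j then a ∈ M_j(z_j(b))
  have hYM : ∀ a b : Lab k d N, ∀ j, (a, b) ∈ Y → zc b j ∈ C j →
      Sum.inl a ∈ M j (zc b j) := by
    intro a b j hab hc
    by_contra hnot
    rw [hY, Finset.mem_sdiff] at hab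
    apply hab.2
    rw [hR, Finset.mem_biUnion]
    refine ⟨j, Finset.mem_univ _, ?_⟩
    rw [Finset.mem_biUnion]
    refine ⟨zc b j, hc, ?_⟩
    rw [Finset.mem_sdiff]
    refine ⟨(mem_inn_W hX.sub).2 ⟨hab.1, rfl⟩, ?_⟩
    intro h
    exact hnot (mem_inn.1 h).2.1
  have huniq : ∀ a b b' : Lab k d N, ∀ j, (a, b) ∈ Y → (a, b') ∈ Y → zc b j ∈ C j →
      zc b' j ∈ C j → zc b j = zc b' j := by
    intro a b b' j h1 h2 h3 h4
    by_contra hne'
    have h5 := hYM a b j h1 h3
    have h6 := hYM a b' j h2 h4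
    exact Finset.disjoint_left.1 (hM2 j _ h3 _ h4 hne') h5 h6
  -- frequencies
  have hfreq : ∀ j, T * (Y.card : ℝ) ≤ ((Y.filter fun e => zc e.2 j ∈ C j).card : ℝ) := by
    intro j
    have h1 : ∑ i ∈ C j, (inn X (U ∩ Wset j i)).card =
        ((inn X U).filter fun e => zc e.2 j ∈ C j).card := by
      have hmaps : ∀ e ∈ (inn X U).filter (fun e => zc e.2 j ∈ C j), zc e.2 j ∈ C j :=
        fun e he => (Finset.mem_filter.1 he).2
      rw [Finset.card_eq_sum_card_fiberwise hmaps]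
      apply Finset.sum_congr rfl
      intro i hi
      congr 1
      ext e
      rw [mem_inn_W hX.sub, Finset.mem_filter, Finset.mem_filter]
      constructor
      · rintro ⟨h2, h3⟩
        exact ⟨⟨h2, by rw [h3]; exact hi⟩, h3⟩
      · rintro ⟨⟨h2, _⟩, h3⟩
        exact ⟨h2, h3⟩
    have h2 : τ * ((inn X U).card : ℝ) ≤ (((inn X U).filter fun e => zc e.2 j ∈ C j).card : ℝ) := by
      have := hM4 j
      rw [← h1]
      push_cast
      exact this
    have h3 : (((inn X U).filter fun e => zc e.2 j ∈ C j).card : ℝ) ≤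
        R.card + ((Y.filter fun e => zc e.2 j ∈ C j).card : ℝ) := by
      have h4 : (inn X U).filter (fun e => zc e.2 j ∈ C j) ⊆
          R ∪ (Y.filter fun e => zc e.2 j ∈ C j) := by
        intro e he
        rw [Finset.mem_filter] at he
        rw [Finset.mem_union, Finset.mem_filter]
        by_cases h : e ∈ R
        · exact Or.inl h
        · exact Or.inr ⟨Finset.mem_sdiff.2 ⟨he.1, h⟩, he.2⟩
      have h5 := (Finset.card_le_card h4).trans (Finset.card_union_le _ _)
      exact_mod_cast h5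
    have h4 : (Y.card : ℝ) ≤ (inn X U).card := by
      exact_mod_cast Finset.card_le_card hYsub
    nlinarith
  -- the weights
  have hW : ∀ j, ∃ θ lam ψ1 ψ2 χ0 χ1 : ℝ, Wt T c0 (((C j).card : ℝ) / k) θ lam ψ1 ψ2 χ0 χ1 := by
    intro j
    have hk' : (0 : ℝ) < k := by exact_mod_cast hk
    apply exists_wt hT0 hT1 (by positivity)
    rw [div_le_one hk']
    have h1 : (C j).card ≤ k := by
      have := Finset.card_le_univ (C j)
      rwa [Fintype.card_fin] at this
    exact_mod_cast h1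
  choose θ lam ψ1 ψ2 χ0 χ1 hW using hW
  have hs := schur hk hX hYsub hW huniq
  have ht := tangent (C := C) (fun j => (hW j).hθ) hfreq
  have hprod : ∏ j, lam j ≤ (1 - c0) ^ d * ∏ j, Real.exp (T * Real.log (θ j)) := by
    have h1 : ∏ j, lam j ≤ ∏ j : Fin d, ((1 - c0) * Real.exp (T * Real.log (θ j))) :=
      Finset.prod_le_prod (fun j _ => (hW j).hlam.le) (fun j _ => (hW j).i6)
    rwa [Finset.prod_mul_distrib, Finset.prod_const, Finset.card_univ, Fintype.card_fin] at h1
  set P : ℝ := ∏ j, Real.exp (T * Real.log (θ j)) with hP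
  have hPpos : 0 < P := Finset.prod_pos fun j _ => Real.exp_pos _
  have hDU : 0 ≤ D * (U.card : ℝ) := mul_nonneg hD.le hU0
  have h1 : (Y.card : ℝ) * P ≤ 1 / 2 * (δ * P) * (D * U.card) := by
    have h2 : 1 / 2 * (∏ j, lam j) * D * (U.card : ℝ) ≤ 1 / 2 * (δ * P) * (D * U.card) := by
      have h3 : ∏ j, lam j ≤ δ * P :=
        hprod.trans (mul_le_mul_of_nonneg_right hdd hPpos.le)
      have h4 := mul_le_mul_of_nonneg_right h3 hDU
      nlinarith
    linarith
  have h2 : (Y.card : ℝ) ≤ 1 / 2 * (δ * D * U.card) := by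
    have h3 : (Y.card : ℝ) * P ≤ (1 / 2 * (δ * D * U.card)) * P := by nlinarith
    exact le_of_mul_le_mul_right h3 hPpos
  nlinarith

end

end Pool.Agent.R209.LU
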